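import Pool.Agent.Results.MP_c95b3b_ag.TropicallyGenericFamilies
import Pool.Agent.Q170.RG.Rigid

/-!
Tropicalizations of systems of `r` Laurent polynomials with generic orders of the coefficients: no linear
subspace of dimension smaller than `r` meets more than `(r - 1) (n - r + 1)` of them (helper file).
-/

set_option autoImplicit false

namespace Pool.Agent.Q170.TT

open MvPolynomial
open Pool.Agent.Q170.RG (exists_rel exists_pivots)
open Pool.Agent.Results.MP_c95b3b_ag.TropicallyGenericFamilies (Trop InGeneralPosition)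

/-- the exponents of the system -/
abbrev Mon {n r : ℕ} (A : Fin r → Finset (Fin n → ℤ)) : Type := Σ j : Fin r, {β // β ∈ A j}

/-- the number of degenerate members which are needed -/
def needed (n r : ℕ) : ℕ := (r - 1) * (n - (r - 1)) + 1

section pattern

variable {n r M : ℕ} (A : Fin r → Finset (Fin n → ℤ))

/-- the variables for a pattern -/
abbrev Var (S : Finset (Fin M)) (I : Finset (Fin n)) : Type :=
  ({j // j ∈ Iᶜ} × {i // i ∈ I}) ⊕ ({l // l ∈ S} × {i // i ∈ I})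

theorem card_var (S : Finset (Fin M)) (I : Finset (Fin n)) (hr : 1 ≤ r) (hI : I.card = r - 1)
    (hrn : r ≤ n + 1) (hS : S.card = needed n r) :
    Fintype.card (Var S I) < Fintype.card ({l // l ∈ S} × Fin r) := by
  rw [Fintype.card_sum, Fintype.card_prod, Fintype.card_prod, Fintype.card_prod]
  simp only [Fintype.card_coe, Fintype.card_fin]
  rw [Finset.card_compl, Fintype.card_fin, hI, hS, needed]
  obtain ⟨q, rfl⟩ : ∃ q, r = q + 1 := ⟨r - 1, by omega⟩
  simp only [Nat.add_sub_cancel]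
  nlinarith [Nat.zero_le ((n - q) * q)]

/-- The relation for a pattern. -/
theorem exists_pattern (S : Finset (Fin M)) (a b : Fin M → ∀ j : Fin r, {β // β ∈ A j})
    (hab : ∀ l j, a l j ≠ b l j) (I : Finset (Fin n)) (hr : 1 ≤ r) (hI : I.card = r - 1)
    (hrn : r ≤ n + 1) (hS : S.card = needed n r) :
    ∃ P : MvPolynomial (Fin M × Mon A) ℚ, P ≠ 0 ∧ ∀ e : Fin M → Mon A → ℚ,
      (∃ w : Fin n → Fin n → ℚ, (∀ i ∈ I, ∀ j ∈ I, w j i = if j = i then 1 else 0) ∧
        ∀ l ∈ S, ∃ v : Fin n → ℚ, (∀ j, v j = ∑ i ∈ I, w j i * v i) ∧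
          ∀ j, e l ⟨j, a l j⟩ + ∑ i, ((a l j : Fin n → ℤ) i : ℚ) * v i =
            e l ⟨j, b l j⟩ + ∑ i, ((b l j : Fin n → ℤ) i : ℚ) * v i) →
      eval (fun x => e x.1 x.2) P = 0 := by
  classical
  let W : Fin n → Fin n → MvPolynomial (Var S I) ℚ := fun j i =>
    if hi : i ∈ I then
      if hj : j ∈ I then (if j = i then 1 else 0)
      else X (Sum.inl (⟨j, Finset.mem_compl.2 hj⟩, ⟨i, hi⟩))
    else 0
  let Z : {l // l ∈ S} → Fin n → MvPolynomial (Var S I) ℚ := fun l i =>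
    if hi : i ∈ I then X (Sum.inr (l, ⟨i, hi⟩)) else 0
  let g : {l // l ∈ S} × Fin r → MvPolynomial (Var S I) ℚ := fun x =>
    ∑ q, C (((b x.1 x.2 : Fin n → ℤ) q : ℚ) - ((a x.1 x.2 : Fin n → ℤ) q : ℚ)) *
      ∑ i ∈ I, W q i * Z x.1 i
  obtain ⟨P, hP, hPg⟩ := exists_rel g (card_var S I hr hI hrn hS)
  let θ : {l // l ∈ S} × Fin r → MvPolynomial (Fin M × Mon A) ℚ := fun x =>
    X ((x.1 : Fin M), ⟨x.2, a x.1 x.2⟩) - X ((x.1 : Fin M), ⟨x.2, b x.1 x.2⟩)
  let ψ : Fin M × Mon A → MvPolynomial ({l // l ∈ S} × Fin r) ℚ := fun y =>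
    if h : y.1 ∈ S ∧ y.2.2 = a y.1 y.2.1 then X (⟨y.1, h.1⟩, y.2.1) else 0
  refine ⟨aeval θ P, ?_, ?_⟩
  · intro h0
    apply hP
    have h1 : aeval ψ (aeval θ P) = P := by
      have h2 : ((aeval ψ : MvPolynomial (Fin M × Mon A) ℚ →ₐ[ℚ] _).comp (aeval θ)) =
          AlgHom.id ℚ (MvPolynomial ({l // l ∈ S} × Fin r) ℚ) := by
        refine algHom_ext fun x => ?_
        rw [AlgHom.comp_apply, aeval_X, AlgHom.id_apply]
        simp only [θ]
        rw [map_sub, aeval_X, aeval_X]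
        simp only [ψ]
        rw [dif_pos ⟨x.1.2, trivial⟩, dif_neg (fun h => hab _ _ h.2.symm), sub_zero]
      have h3 := congrArg (fun f : _ →ₐ[ℚ] _ => f P) h2
      exact h3
    rw [← h1, h0, map_zero]
  · rintro e ⟨w, hw, hv⟩
    choose v hv1 hv2 using fun l : {l // l ∈ S} => hv l l.2
    let pt : Var S I → ℚ := Sum.elim (fun x => w x.1 x.2) (fun x => v x.1 x.2)
    have hW : ∀ j, ∀ i ∈ I, eval pt (W j i) = w j i := by
      intro j i hi
      by_cases hj : j ∈ I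
      · simp only [W, dif_pos hi, dif_pos hj]
        rw [hw i hi j hj]
        split_ifs <;> simp
      · simp only [W, dif_pos hi, dif_neg hj, eval_X]
        rfl
    have hZ : ∀ l, ∀ i ∈ I, eval pt (Z l i) = v l i := by
      intro l i hi
      simp only [Z, dif_pos hi, eval_X]
      rfl
    have hg : ∀ x : {l // l ∈ S} × Fin r, eval pt (g x) =
        e x.1 ⟨x.2, a x.1 x.2⟩ - e x.1 ⟨x.2, b x.1 x.2⟩ := by
      intro x
      simp only [g, map_sum, map_mul, eval_C]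
      have h1 : ∀ q : Fin n, ∑ i ∈ I, eval pt (W q i) * eval pt (Z x.1 i) = v x.1 q := by
        intro q
        rw [Finset.sum_congr rfl fun i hi => by rw [hW _ i hi, hZ _ i hi], ← hv1 x.1 q]
      rw [Finset.sum_congr rfl fun q _ => by rw [h1 q]]
      have h2 := hv2 x.1 x.2
      rw [Finset.sum_congr rfl fun q _ => sub_mul _ _ _, Finset.sum_sub_distrib]
      linarith
    have h1 : eval pt (aeval g P) = 0 := by rw [hPg, map_zero]
    have h2 : ∀ {σ τ : Type} (q : σ → ℚ) (h : τ → MvPolynomial σ ℚ) (P : MvPolynomial τ ℚ),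
        eval q (aeval h P) = eval (fun x => eval q (h x)) P := by
      intro σ τ q h P
      rw [map_aeval]
      have h3 : (eval q).comp (algebraMap ℚ (MvPolynomial σ ℚ)) = RingHom.id ℚ := by
        refine RingHom.ext fun a => ?_
        rw [RingHom.comp_apply, MvPolynomial.algebraMap_eq, eval_C]
        rfl
      rw [h3]
      rfl
    rw [h2] at h1 ⊢
    rw [← h1]
    congr 1
    congr 1
    funext x
    rw [hg x]
    simp [θ]

end pattern

open scoped Classical in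
/-- Generic systems of orders are in general position. -/
theorem generic {n r M : ℕ} (hr : 1 ≤ r) (hrn : r ≤ n + 1) (A : Fin r → Finset (Fin n → ℤ)) :
    ∃ P : MvPolynomial (Fin M × Mon A) ℚ, P ≠ 0 ∧
      ∀ e : Fin M → Fin r → (Fin n → ℤ) → ℤ,
        eval (fun x => (e x.1 x.2.1 x.2.2 : ℚ)) P ≠ 0 →
        InGeneralPosition r (needed n r) fun l => Trop A (e l) := by
  let Pat : Type := Finset (Fin M) × (Fin M → ∀ j : Fin r, {β // β ∈ A j}) ×
    (Fin M → ∀ j : Fin r, {β // β ∈ A j}) × Finset (Fin n)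
  let ok : Pat → Prop := fun x => (∀ l j, x.2.1 l j ≠ x.2.2.1 l j) ∧ x.2.2.2.card = r - 1 ∧
    x.1.card = needed n r
  have hP : ∀ x : Pat, ∃ P : MvPolynomial (Fin M × Mon A) ℚ, P ≠ 0 ∧ (ok x →
      ∀ e : Fin M → Mon A → ℚ,
      (∃ w : Fin n → Fin n → ℚ, (∀ i ∈ x.2.2.2, ∀ j ∈ x.2.2.2, w j i = if j = i then 1 else 0) ∧
        ∀ l ∈ x.1, ∃ v : Fin n → ℚ, (∀ j, v j = ∑ i ∈ x.2.2.2, w j i * v i) ∧
          ∀ j, e l ⟨j, x.2.1 l j⟩ + ∑ i, ((x.2.1 l j : Fin n → ℤ) i : ℚ) * v i =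
            e l ⟨j, x.2.2.1 l j⟩ + ∑ i, ((x.2.2.1 l j : Fin n → ℤ) i : ℚ) * v i) →
      eval (fun x => e x.1 x.2) P = 0) := by
    intro x
    by_cases h : ok x
    · obtain ⟨P, hP, h1⟩ := exists_pattern A x.1 x.2.1 x.2.2.1 h.1 x.2.2.2 hr h.2.1 hrn h.2.2
      exact ⟨P, hP, fun _ => h1⟩
    · exact ⟨1, one_ne_zero, fun h' => absurd h' h⟩
  choose P hP0 hP using hP
  refine ⟨∏ x, P x, Finset.prod_ne_zero_iff.2 fun x _ => hP0 x, fun e he => ?_⟩
  intro L hL S hS
  by_contra hcon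
  push Not at hcon
  apply he
  rw [map_prod]
  choose! w hwL hwT using hcon
  obtain ⟨I, W, hI, hW, hIw⟩ := exists_pivots (d := r - 1) L (by omega) (by omega)
  -- the exponents at which the minimum is attained
  have hS0 : S.Nonempty := by
    rw [← Finset.card_pos, hS, needed]
    exact Nat.succ_pos _
  obtain ⟨l₀, hl₀⟩ := hS0
  have hex : ∀ l : Fin M, ∃ s : ∀ j : Fin r, {β // β ∈ A j} × {β // β ∈ A j},
      (∀ j, (s j).1 ≠ (s j).2) ∧ (l ∈ S → ∀ j,
        (e l j (s j).1 : ℚ) + ∑ i, (((s j).1 : Fin n → ℤ) i : ℚ) * w l i =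
          (e l j (s j).2 : ℚ) + ∑ i, (((s j).2 : Fin n → ℤ) i : ℚ) * w l i) := by
    intro l
    by_cases hl : l ∈ S
    · choose a ha b hb hab heq _ using hwT l hl
      exact ⟨fun j => (⟨a j, ha j⟩, ⟨b j, hb j⟩), fun j h => hab j (congrArg Subtype.val h),
        fun _ j => heq j⟩
    · choose a ha b hb hab heq _ using hwT l₀ hl₀
      exact ⟨fun j => (⟨a j, ha j⟩, ⟨b j, hb j⟩), fun j h => hab j (congrArg Subtype.val h),
        fun h => absurd h hl⟩
  choose s hs1 hs2 using hex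
  refine Finset.prod_eq_zero
    (Finset.mem_univ ((S, fun l j => (s l j).1, fun l j => (s l j).2, I) : Pat)) ?_
  exact hP (S, fun l j => (s l j).1, fun l j => (s l j).2, I) ⟨hs1, hI, hS⟩
    (fun l x => (e l x.1 x.2 : ℚ)) ⟨W, hW, fun l hl => ⟨w l, fun j => hIw _ (hwL l hl) j,
    fun j => hs2 l hl j⟩⟩

end Pool.Agent.Q170.TT
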