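import Pool.Agent.Q170.TT.Multi
import Pool.Agent.Q170.ZP.MultiCount

/-!
# Generic orders: common definitions
-/

set_option autoImplicit false

namespace Pool.Agent.Q170.TT

open MvPolynomial

/-- `P(e) ≠ 0` for the orders `e`. -/
def GenericFor {n r M : ℕ} {A : Fin r → Finset (Fin n → ℤ)} (P : MvPolynomial (Fin M × Mon A) ℚ)
    (e : Fin M → Fin r → (Fin n → ℤ) → ℤ) : Prop :=
  eval (fun x => (e x.1 x.2.1 x.2.2 : ℚ)) P ≠ 0

/-- The number of the bad integral parameters. -/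
theorem count {s M : ℕ} (hM0 : 0 < M) (D E : Fin M → MvPolynomial (Fin s) ℤ)
    (hDE : ∀ l, 0 < (D l).totalDegree ∧ IsRelPrime (D l) (E l)) (Q : ℕ) (ε : ℝ) (hε : 0 < ε) :
    ∃ C : ℝ, 0 < C ∧ ∀ H : ℕ, 1 ≤ H →
      (({t : Fin s → ℤ | (∀ j, |t j| ≤ H) ∧ ¬ ∀ l, eval t (D l) ≠ 0 ∧
        ∃ p : ℕ, p.Prime ∧ Q < p ∧ (p : ℤ) ∣ eval t (D l) ∧ ¬ (p : ℤ) ∣ eval t (E l)}.ncard : ℕ) : ℝ) ≤
        C * (H : ℝ) ^ ((s : ℝ) - 1 + ε) := by
  classical
  choose C hC hcount using fun l =>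
    Pool.Agent.Q170.ZP.Count.card_bad (D l) (E l) (hDE l).1 (hDE l).2 Q ε hε
  have hs : 1 ≤ s := by
    by_contra h
    have h1 : s = 0 := by omega
    subst h1
    have h2 := (hDE ⟨0, hM0⟩).1
    rw [MvPolynomial.eq_C_of_isEmpty (D ⟨0, hM0⟩), totalDegree_C] at h2
    exact lt_irrefl _ h2
  have hD0 : ∀ l, D l ≠ 0 := by
    intro l h
    have h2 := (hDE l).1
    rw [h, totalDegree_zero] at h2
    exact lt_irrefl _ h2
  let C' : ℝ := ∑ l, (C l + (D l).totalDegree * 3 ^ (s - 1))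
  have hzero : ∀ l, ∀ H : ℕ, 1 ≤ H →
      (((Pool.Agent.Q170.ZP.Count.box s H).filter fun t => eval t (D l) = 0).card : ℝ) ≤
        (D l).totalDegree * 3 ^ (s - 1) * (H : ℝ) ^ ((s : ℝ) - 1 + ε) := by
    intro l H hH
    have h1 := Pool.Agent.Q170.ZP.Count.card_zero (D l) (hD0 l) hs H
    have hH1 : (1 : ℝ) ≤ H := by exact_mod_cast hH
    calc (((Pool.Agent.Q170.ZP.Count.box s H).filter fun t => eval t (D l) = 0).card : ℝ)
        ≤ (((D l).totalDegree * (2 * H + 1) ^ (s - 1) : ℕ) : ℝ) := by exact_mod_cast h1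
      _ = ((D l).totalDegree : ℝ) * (2 * H + 1) ^ (s - 1) := by push_cast; ring
      _ ≤ ((D l).totalDegree : ℝ) * (3 * H) ^ (s - 1) := by
          gcongr
          linarith
      _ = (D l).totalDegree * 3 ^ (s - 1) * (H : ℝ) ^ (s - 1) := by rw [mul_pow]; ring
      _ ≤ (D l).totalDegree * 3 ^ (s - 1) * (H : ℝ) ^ ((s : ℝ) - 1 + ε) := by
          refine mul_le_mul_of_nonneg_left ?_ (by positivity)
          rw [← Real.rpow_natCast]
          refine Real.rpow_le_rpow_of_exponent_le hH1 ?_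
          rw [Nat.cast_sub hs]
          push_cast
          linarith
  refine ⟨C', Finset.sum_pos (fun l _ => add_pos_of_pos_of_nonneg (hC l) (by positivity))
    ⟨⟨0, hM0⟩, Finset.mem_univ _⟩, fun H hH => ?_⟩
  let bad : Fin M → Finset (Fin s → ℤ) := fun l =>
    ((Pool.Agent.Q170.ZP.Count.box s H).filter fun t =>
      ¬ ∃ p : ℕ, p.Prime ∧ Q < p ∧ (p : ℤ) ∣ eval t (D l) ∧ ¬ (p : ℤ) ∣ eval t (E l)) ∪
    ((Pool.Agent.Q170.ZP.Count.box s H).filter fun t => eval t (D l) = 0)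
  have h1 : {t : Fin s → ℤ | (∀ j, |t j| ≤ H) ∧ ¬ ∀ l, eval t (D l) ≠ 0 ∧
      ∃ p : ℕ, p.Prime ∧ Q < p ∧ (p : ℤ) ∣ eval t (D l) ∧ ¬ (p : ℤ) ∣ eval t (E l)} ⊆
      ((Finset.univ.biUnion bad : Finset (Fin s → ℤ)) : Set (Fin s → ℤ)) := by
    rintro t ⟨ht, hbad⟩
    push Not at hbad
    obtain ⟨l, hl⟩ := hbad
    rw [Finset.mem_coe, Finset.mem_biUnion]
    refine ⟨l, Finset.mem_univ l, ?_⟩
    rw [Finset.mem_union]
    by_cases h0 : eval t (D l) = 0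
    · exact Or.inr (Finset.mem_filter.2 ⟨Pool.Agent.Q170.ZP.Count.mem_box.2 ht, h0⟩)
    · refine Or.inl (Finset.mem_filter.2 ⟨Pool.Agent.Q170.ZP.Count.mem_box.2 ht, ?_⟩)
      rintro ⟨p, hp, hpQ, hpD, hpE⟩
      exact hpE (hl h0 p hp hpQ hpD)
  have h2 := (Set.ncard_le_ncard h1 (Finset.finite_toSet _)).trans
    ((Set.ncard_coe_finset _).le.trans Finset.card_biUnion_le)
  calc _ ≤ ((∑ l, (bad l).card : ℕ) : ℝ) := by exact_mod_cast h2
    _ = ∑ l, ((bad l).card : ℝ) := by push_cast; rfl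
    _ ≤ ∑ l, (C l + (D l).totalDegree * 3 ^ (s - 1)) * (H : ℝ) ^ ((s : ℝ) - 1 + ε) := by
        refine Finset.sum_le_sum fun l _ => ?_
        have h3 : ((bad l).card : ℝ) ≤
            (((Pool.Agent.Q170.ZP.Count.box s H).filter fun t =>
              ¬ ∃ p : ℕ, p.Prime ∧ Q < p ∧ (p : ℤ) ∣ eval t (D l) ∧
                ¬ (p : ℤ) ∣ eval t (E l)).card : ℝ) +
            (((Pool.Agent.Q170.ZP.Count.box s H).filter fun t => eval t (D l) = 0).card : ℝ) := by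
          exact_mod_cast Finset.card_union_le _ _
        have h4 := hcount l H hH
        have h5 := hzero l H hH
        rw [add_mul]
        linarith
    _ = C' * (H : ℝ) ^ ((s : ℝ) - 1 + ε) := by rw [Finset.sum_mul]

end Pool.Agent.Q170.TT
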