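import Pool.Agent.Q170.TT.Gen
import Pool.Agent.Q170.ZP.MultiFam

/-!
Families of subvarieties of tori with several parameters which degenerate along hypersurfaces
(helper file).
-/

set_option autoImplicit false

namespace Pool.Agent.Q170.TT

open MvPolynomial Pool.Agent.TH526.ZL
open Pool.Agent.Q170.ZP.Multi (certP v_int_one v_int_lt aeval_int)
open Pool.Agent.Results.MP_c95b3b_ag.TropicallyGenericFamilies (Trop IsUnitOver NoAtypical)
open Pool.Agent.Results.MP_b7926e_nt.NoAtypical (coset idealOf dim)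

variable {s n m : ℕ}

/-- The member `X_t` of the family: the points of the torus at which all the Laurent polynomials
`∑_β c_jβ(t) x^β` vanish. -/
def member (A : Fin m → Finset (Fin n → ℤ)) (c : Fin m → (Fin n → ℤ) → MvPolynomial (Fin s) ℂ)
    (t : Fin s → ℂ) : Set (Fin n → ℂ) :=
  {x | (∀ i, x i ≠ 0) ∧ ∀ j, ∑ β ∈ A j, eval t (c j β) * ∏ i, x i ^ β i = 0}

theorem eval_mem (V : ValuationSubring ℂ) (P : MvPolynomial (Fin s) ℂ)
    (hP : ∀ u ∈ P.support, P.coeff u ∈ V) {t : Fin s → ℂ} (ht : ∀ j, t j ∈ V) :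
    eval t P ∈ V := by
  rw [eval_eq]
  exact sum_mem fun u hu => mul_mem (hP u hu) (prod_mem fun j _ => pow_mem (ht j) _)

/-- The criterion for families with several parameters. -/
theorem multiT {N : ℕ} (hN : 0 < N) (r : ℕ) (A : Fin m → Finset (Fin n → ℤ)) (hA : ∀ j, (A j).Nonempty)
    (c : Fin m → (Fin n → ℤ) → MvPolynomial (Fin s) ℂ) (D E : Fin N → MvPolynomial (Fin s) ℤ)
    (b : Fin N → Fin m → (Fin n → ℤ) → MvPolynomial (Fin s) ℂ)
    (e : Fin N → Fin m → (Fin n → ℤ) → ℕ)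
    (hc : ∀ l j, ∀ β ∈ A j, c j β = MvPolynomial.map (Int.castRingHom ℂ) (D l) ^ e l j β *
      b l j β)
    (hb : ∀ l (t : Fin s → ℂ), aeval t (D l) = 0 → aeval t (E l) ≠ 0 →
      ∀ j, ∀ β ∈ A j, eval t (b l j β) ≠ 0)
    (hgen : ∀ L : Submodule ℚ (Fin n → ℚ), Module.finrank ℚ L < r →
      ∃ l, ∀ w ∈ L, w ∉ Trop A (fun j β => (e l j β : ℤ)))
    (Γ : Set ℂ) (hΓ : Γ.Finite) :
    ∃ Q : ℕ, ∀ t : Fin s → ℤ, (∀ l, eval t (D l) ≠ 0 ∧ ∃ p : ℕ, p.Prime ∧ Q < p ∧
      (p : ℤ) ∣ eval t (D l) ∧ ¬ (p : ℤ) ∣ eval t (E l)) →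
      NoAtypical r Γ (member A c fun j => (t j : ℂ)) := by
  classical
  have hmapeval : ∀ (P : MvPolynomial (Fin s) ℤ) (t : Fin s → ℂ),
      eval t (MvPolynomial.map (Int.castRingHom ℂ) P) = aeval t P := by
    intro P t
    rw [eval_map, aeval_def]
    congr 1
  have haeval : ∀ (P : MvPolynomial (Fin s) ℂ) (t : Fin s → ℂ), aeval t P = eval t P := by
    intro P t
    rw [aeval_def, Algebra.algebraMap_self]
    rfl
  -- the certificates for the cofactors
  have hcert := fun (l : Fin N) (x : Mon A) =>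
    certP (k := ℂ) (fun a : Empty => (a.elim : MvPolynomial (Fin s) ℂ))
      (fun a : Bool => bif a then (MvPolynomial.map (Int.castRingHom ℂ) (D l)) else b l x.1 x.2)
      (MvPolynomial.map (Int.castRingHom ℂ) (E l)) (by
        intro z _ hF
        rw [haeval, hmapeval]
        by_contra hE
        have hD : aeval z (D l) = 0 := by
          have h1 := hF true
          simp only [cond_true] at h1
          rwa [haeval, hmapeval] at h1
        have h2 := hF false
        simp only [cond_false] at h2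
        rw [haeval] at h2
        exact hb l z hD hE x.1 x.2 x.2.2 h2)
  choose M' U hU using hcert
  let cf : MvPolynomial (Fin s) ℂ → Set ℂ := fun P => (fun u => P.coeff u) '' (P.support : Set _)
  have hcf : ∀ P, (cf P).Finite := fun P => (P.support.finite_toSet).image _
  let W : Set ℂ := (⋃ q : Fin N × Mon A, (cf (U q.1 q.2 true) ∪ cf (U q.1 q.2 false)) ∪
    cf (b q.1 q.2.1 q.2.2)) ∪ Γ
  have hW : W.Finite :=
    (Set.finite_iUnion fun q => ((hcf _).union (hcf _)).union (hcf _)).union hΓ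
  have := hW.to_subtype
  obtain ⟨Q, hQ⟩ := Pool.Agent.W466.ZC.exists_val' (k := ℂ) (fun z : W => (z : ℂ))
  refine ⟨Q, fun t ht => ?_⟩
  choose hD0 p hp hpQ hpD hpE using ht
  choose V hV1 hVW _ using fun l => hQ (p l) (hp l) (hpQ l) Empty (Empty.elim : Empty → ℂ)
    (algebraicIndependent_empty_type_iff.2 (algebraMap ℂ ℂ).injective)
  have hVW' : ∀ l, ∀ z ∈ W, z ∈ V l := fun l z hz => hVW l ⟨z, hz⟩
  have hVp : ∀ l, (V l).valuation ((p l : ℕ) : ℂ) < 1 := fun l => by
    have h1 := hV1 l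
    rwa [ValuationSubring.mem_nonunits_iff] at h1
  obtain ⟨t', ht'⟩ : ∃ t' : Fin s → ℂ, t' = fun j => (t j : ℂ) := ⟨_, rfl⟩
  have ht'V : ∀ l j, t' j ∈ V l := fun l j => by
    rw [ht']
    exact intCast_mem (V l) (t j)
  have hDt : ∀ l, aeval t' (D l) = ((eval t (D l) : ℤ) : ℂ) := fun l => by
    rw [ht']
    exact aeval_int t (D l)
  have hEt : ∀ l, aeval t' (E l) = ((eval t (E l) : ℤ) : ℂ) := fun l => by
    rw [ht']
    exact aeval_int t (E l)
  have hVD : ∀ l, (V l).valuation (aeval t' (D l)) < 1 := fun l => by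
    rw [hDt]
    exact v_int_lt (hVp l) (hpD l)
  have hVE : ∀ l, (V l).valuation (aeval t' (E l)) = 1 := fun l => by
    rw [hEt]
    exact v_int_one (hp l) (hVp l) (hpE l)
  have hD0' : ∀ l, aeval t' (D l) ≠ 0 := fun l => by
    rw [hDt]
    exact_mod_cast hD0 l
  -- the cofactors are units
  have hbV : ∀ l j, ∀ β ∈ A j, (V l).valuation (eval t' (b l j β)) = 1 := by
    intro l j β hβ
    let x : Mon A := ⟨j, β, hβ⟩
    have hcoef : ∀ (P : MvPolynomial (Fin s) ℂ), cf P ⊆ W → eval t' P ∈ V l := fun P hP =>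
      eval_mem (V l) P (fun u hu => hVW' l _ (hP ⟨u, hu, rfl⟩)) (ht'V l)
    have hle : (V l).valuation (eval t' (b l j β)) ≤ 1 :=
      (ValuationSubring.valuation_le_one_iff _ _).2 (hcoef _ fun z hz =>
        Or.inl (Set.mem_iUnion.2 ⟨(l, x), Or.inr hz⟩))
    refine le_antisymm hle ?_
    by_contra hlt
    push Not at hlt
    have h1 := hU l x t' (fun a => a.elim)
    rw [Fintype.sum_bool, haeval, hmapeval] at h1
    simp only [cond_true, cond_false] at h1
    rw [haeval, haeval, haeval, haeval, hmapeval] at h1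
    have hUm : ∀ a, (V l).valuation (eval t' (U l x a)) ≤ 1 := by
      intro a
      refine (ValuationSubring.valuation_le_one_iff _ _).2 (hcoef _ fun z hz =>
        Or.inl (Set.mem_iUnion.2 ⟨(l, x), Or.inl ?_⟩))
      cases a
      · exact Or.inr hz
      · exact Or.inl hz
    have h2 : (V l).valuation (aeval t' (E l) ^ M' l x) < 1 := by
      rw [h1]
      refine Valuation.map_add_lt _ ?_ ?_
      · rw [map_mul]
        exact (mul_le_of_le_one_left' (hUm true)).trans_lt (hVD l)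
      · rw [map_mul]
        exact (mul_le_of_le_one_left' (hUm false)).trans_lt hlt
    rw [map_pow, hVE, one_pow] at h2
    exact lt_irrefl _ h2
  have hcv : ∀ l j, ∀ β ∈ A j, (V l).valuation (eval t' (c j β)) =
      (V l).valuation (aeval t' (D l)) ^ e l j β := by
    intro l j β hβ
    rw [hc l j β hβ, map_mul, map_pow, hmapeval, map_mul, map_pow, hbV l j β hβ, mul_one]
  have hunit : ∀ l, ∀ z, IsUnitOver Γ z → (V l).valuation z = 1 := by
    intro l z ⟨hz0, h1, h2⟩
    have h3 : ∀ w : ℂ, IsIntegral (Algebra.adjoin ℤ Γ) w → (V l).valuation w ≤ 1 := by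
      intro w hw
      have h4 : algebraMap ℂ ℂ '' Γ = Γ := by
        rw [Algebra.algebraMap_self]
        exact Set.image_id Γ
      refine Pool.Agent.Y152.BD.v_le_of_int (k := ℂ) Γ (V l)
        (fun x hx => hVW' l x (Or.inr hx)) ?_
      rw [h4]
      exact hw
    refine le_antisymm (h3 z h1) ?_
    have h5 := h3 _ h2
    rw [map_inv₀] at h5
    have h6 : (V l).valuation z ≠ 0 := (Valuation.ne_zero_iff _).2 hz0
    exact (inv_le_one₀ (zero_lt_iff.2 h6)).1 h5
  intro Λ η hη B hBX hBT hB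
  have hc0 : ∀ j, ∀ β ∈ A j, eval t' (c j β) ≠ 0 := by
    intro j β hβ h0
    have h1 := hcv ⟨0, hN⟩ j β hβ
    rw [h0, map_zero] at h1
    exact pow_ne_zero _ ((Valuation.ne_zero_iff _).2 (hD0' _)) h1.symm
  refine Pool.Agent.Y199.ZF.crit A hA (fun j β => eval t' (c j β)) hc0 V
    (fun l => aeval t' (D l)) hD0' hVD (fun l j β => (e l j β : ℤ)) (fun l j β hβ => ?_) hgen
    Λ η (fun i => (hη i).1) (fun l i => hunit l _ (hη i)) B ?_ hBT hB
  · rw [hcv l j β hβ, zpow_natCast]
  · rw [ht']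
    exact hBX

end Pool.Agent.Q170.TT
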