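import Pool.Agent.Q170.DM.Cert
import Pool.Agent.Q170.TT.Multi
import Pool.Agent.Results.MP_b7926e_nt.FewExceptionalParameters

/-!
Unlikely intersections with cosets by points of groups which depend on the parameters (helper file).
-/

set_option autoImplicit false

namespace Pool.Agent.Q170.TT

open MvPolynomial Pool.Agent.TH526.ZL Pool.Agent.Y199.ZF Pool.Agent.Q170.DM
open Pool.Agent.H173R3.ZT Pool.Agent.TH526.ZT
open Pool.Agent.Q170.ZP.Multi (v_int_one v_int_lt aeval_int)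
open Pool.Agent.Results.MP_b7926e_nt.NoAtypical (coset idealOf dim)

variable {n m : ℕ}

/-- The criterion for cosets by points whose coordinates have arbitrary values. -/
theorem critM {N r : ℕ} (A : Fin m → Finset (Fin n → ℤ)) (hA : ∀ j, (A j).Nonempty)
    (b : Fin m → (Fin n → ℤ) → ℂ) (hb : ∀ j, ∀ a ∈ A j, b j a ≠ 0)
    (V : Fin N → ValuationSubring ℂ) (π : Fin N → ℂ) (hπ0 : ∀ l, π l ≠ 0)
    (hπ1 : ∀ l, (V l).valuation (π l) < 1) (e : Fin N → Fin m → (Fin n → ℤ) → ℤ)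
    (he : ∀ l j, ∀ a ∈ A j, (V l).valuation (b j a) = (V l).valuation (π l) ^ e l j a)
    (g : Fin N → Fin n → ℤ)
    (hgen : ∀ L : Submodule ℚ (Fin n → ℚ), Module.finrank ℚ L < r →
      ∃ l, ∀ w ∈ L, (w + fun i => (g l i : ℚ)) ∉ Trop A (e l))
    (M : Submodule ℤ (Fin n → ℤ)) (η : Fin n → ℂ) (hη0 : ∀ i, η i ≠ 0)
    (hη : ∀ l i, (V l).valuation (η i) = (V l).valuation (π l) ^ g l i)
    (W : Set (Fin n → ℂ))
    (hWV : ∀ x ∈ W, (∀ i, x i ≠ 0) ∧ ∀ j, ∑ β ∈ A j, b j β * ∏ i, x i ^ β i = 0)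
    (hWT : W ⊆ coset M η) (hW : (idealOf W).IsPrime) :
    dim W + (r : Cardinal) + (Module.finrank ℤ M : Cardinal) ≤ (n : Cardinal) := by
  classical
  by_contra hcon
  push Not at hcon
  obtain ⟨y, hy0, hyW, Λ, hΛr, hΛ⟩ := exists_special W hW M η hη0 hWT
  have hysys : ∀ j, ∑ α ∈ A j, b j α * ∏ l, y l ^ α l = 0 := fun j =>
    laurent_vanish W (fun x hx => (hWV x hx).1) (A j) (b j) (fun x hx => (hWV x hx).2 j) y hy0 hyW
  have hrank : n < r + Module.finrank ℤ Λ := by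
    have h1 : (n : Cardinal) < ((r + Module.finrank ℤ Λ : ℕ) : Cardinal) := by
      refine hcon.trans_le ?_
      calc dim W + (r : Cardinal) + (Module.finrank ℤ M : Cardinal)
          = (r : Cardinal) + (dim W + (Module.finrank ℤ M : Cardinal)) := by
            rw [add_comm (dim W), add_assoc]
        _ ≤ (r : Cardinal) + (Module.finrank ℤ Λ : Cardinal) := by gcongr
        _ = _ := by push_cast; rfl
    exact_mod_cast h1
  obtain ⟨l, hl⟩ := hgen (perp Λ) (by
    have := finrank_perp Λ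
    omega)
  -- the values at the place `l`
  let v := (V l).valuation
  have hvy : ∀ i, v (y i) ≠ 0 := fun i => (Valuation.ne_zero_iff _).2 (hy0 i)
  have hπv : v (π l) ≠ 0 := (Valuation.ne_zero_iff _).2 (hπ0 l)
  have hchr : ∀ a : Fin n → ℤ, ∏ i, v (y i) ^ a i = v (∏ i, y i ^ a i) := by
    intro a
    rw [map_prod]
    exact Finset.prod_congr rfl fun i _ => (map_zpow₀ _ _ _).symm
  have hzsum : ∀ (s : Finset (Fin n)) (h : Fin n → ℤ), ∏ i ∈ s, v (π l) ^ h i =
      v (π l) ^ ∑ i ∈ s, h i := by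
    intro s h
    induction s using Finset.induction_on with
    | empty => simp
    | insert i s hi ih => rw [Finset.prod_insert hi, Finset.sum_insert hi, ih, zpow_add₀ hπv]
  have hvη : ∀ a : Fin n → ℤ, v (chr η a) = v (π l) ^ ∑ i, g l i * a i := by
    intro a
    rw [chr, map_prod, ← hzsum]
    refine Finset.prod_congr rfl fun i _ => ?_
    rw [map_zpow₀, hη l i, zpow_mul]
  have hvΛ : ∀ a ∈ Λ, ∏ i, v (y i) ^ a i = v (π l) ^ ∑ i, g l i * a i := by
    intro a ha
    obtain ⟨k, hk, h2⟩ := hΛ a ha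
    rw [hchr, ← hvη]
    have hη1 : v (chr η a) ≠ 0 := by
      rw [hvη]
      exact zpow_ne_zero _ hπv
    have h3 := congrArg v h2
    rw [map_pow, map_one, map_div₀] at h3
    have h4 := (pow_eq_one_iff_of_nonneg zero_le hk.ne').1 h3
    rw [div_eq_one_iff_eq hη1] at h4
    exact h4
  have hz : ∀ j, ∀ a ∈ A j, b j a * ∏ i, y i ^ a i ≠ 0 := fun j a ha =>
    mul_ne_zero (hb j a ha) (Finset.prod_ne_zero_iff.2 fun i _ => zpow_ne_zero _ (hy0 i))
  choose a ha b' hb' hab hval hmax using fun j =>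
    exists_pair_val (V l) (A j) (hA j) (fun a => b j a * ∏ i, y i ^ a i) (hz j) (hysys j)
  let B := Module.Free.chooseBasis ℤ Λ
  let ι := Module.Free.ChooseBasisIndex ℤ Λ
  let gB : ι → ℤ := fun i => ∑ k, g l k * (B i : Fin n → ℤ) k
  let vec : (ι ⊕ ι) ⊕ (Fin m ⊕ (Σ j : Fin m, {β // β ∈ A j})) → Fin n → ℤ :=
    Sum.elim (Sum.elim (fun i => (B i : Fin n → ℤ)) (fun i => -(B i : Fin n → ℤ)))
      (Sum.elim (fun j => a j - b' j) (fun x => (x.2 : Fin n → ℤ) - a x.1))
  let zz : (ι ⊕ ι) ⊕ (Fin m ⊕ (Σ j : Fin m, {β // β ∈ A j})) → ℤ :=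
    Sum.elim (Sum.elim (fun i => -gB i) (fun i => gB i))
      (Sum.elim (fun j => e l j (a j) - e l j (b' j)) (fun x => e l x.1 x.2 - e l x.1 (a x.1)))
  have hterm : ∀ j, ∀ α ∈ A j, ∀ β ∈ A j,
      (∏ i, v (y i) ^ (α - β) i) * v (π l) ^ (e l j α - e l j β) =
        v (b j α * ∏ i, y i ^ α i) / v (b j β * ∏ i, y i ^ β i) := by
    intro j α hα β hβ
    have h1 : ∏ i, v (y i) ^ (α - β) i = (∏ i, v (y i) ^ α i) / ∏ i, v (y i) ^ β i := by
      rw [← Finset.prod_div_distrib]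
      refine Finset.prod_congr rfl fun i _ => ?_
      rw [Pi.sub_apply, zpow_sub₀ (hvy i)]
    rw [h1, zpow_sub₀ hπv, map_mul, map_mul, he l j α hα, he l j β hβ, ← hchr, ← hchr]
    rw [div_mul_div_comm, mul_comm (∏ i, v (y i) ^ α i), mul_comm (∏ i, v (y i) ^ β i)]
  obtain ⟨w, hw⟩ := transfer vec zz (fun i => v (y i)) hvy (v (π l)) hπv (hπ1 l) (by
    rintro ((i | i) | (j | ⟨j, β, hβ⟩))
    · change (∏ k, v (y k) ^ (B i : Fin n → ℤ) k) * v (π l) ^ (-gB i) ≤ 1
      rw [hvΛ _ (B i).2, ← zpow_add₀ hπv]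
      change v (π l) ^ (gB i + -gB i) ≤ 1
      rw [add_neg_cancel, zpow_zero]
    · change (∏ k, v (y k) ^ (-(B i : Fin n → ℤ)) k) * v (π l) ^ (gB i) ≤ 1
      rw [hvΛ _ (Λ.neg_mem (B i).2), ← zpow_add₀ hπv]
      have h1 : ∑ k, g l k * (-(B i : Fin n → ℤ)) k + gB i = 0 := by
        simp only [gB, Pi.neg_apply, mul_neg, Finset.sum_neg_distrib]
        ring
      rw [h1, zpow_zero]
    · change (∏ k, v (y k) ^ (a j - b' j) k) * v (π l) ^ (e l j (a j) - e l j (b' j)) ≤ 1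
      rw [hterm j _ (ha j) _ (hb' j)]
      have h1 : v (b j (a j) * ∏ i, y i ^ a j i) = v (b j (b' j) * ∏ i, y i ^ b' j i) := hval j
      rw [h1, div_self ((Valuation.ne_zero_iff _).2 (hz j _ (hb' j)))]
    · change (∏ k, v (y k) ^ (β - a j) k) * v (π l) ^ (e l j β - e l j (a j)) ≤ 1
      rw [hterm j _ hβ _ (ha j)]
      exact div_le_one_of_le₀ (hmax j β hβ) zero_le)
  have hww : ((w - fun i => (g l i : ℚ)) + fun i => (g l i : ℚ)) = w := sub_add_cancel _ _
  refine hl (w - fun i => (g l i : ℚ)) (mem_perp_of_basis B fun i => ?_) ?_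
  · have h1 := hw (Sum.inl (Sum.inl i))
    have h2 := hw (Sum.inl (Sum.inr i))
    simp only [vec, zz, Sum.elim_inl, Sum.elim_inr, Pi.neg_apply,
      Int.cast_neg, neg_mul, Finset.sum_neg_distrib, gB] at h1 h2
    push_cast at h1 h2
    have h3 : ∑ k, (((B i : Fin n → ℤ) k : ℤ) : ℚ) * (w - fun i => (g l i : ℚ)) k =
        ∑ k, (((B i : Fin n → ℤ) k : ℤ) : ℚ) * w k -
          ∑ k, (g l k : ℚ) * (((B i : Fin n → ℤ) k : ℤ) : ℚ) := by
      rw [← Finset.sum_sub_distrib]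
      refine Finset.sum_congr rfl fun k _ => ?_
      rw [Pi.sub_apply]
      ring
    rw [h3]
    linarith
  · rw [hww]
    intro j
    have hdiff : ∀ α β : Fin n → ℤ, ∑ k, (((α - β) k : ℤ) : ℚ) * w k =
        ∑ k, (α k : ℚ) * w k - ∑ k, (β k : ℚ) * w k := by
      intro α β
      rw [← Finset.sum_sub_distrib]
      refine Finset.sum_congr rfl fun k _ => ?_
      rw [Pi.sub_apply]
      push_cast
      ring
    have h3 : ∀ β ∈ A j, (e l j (a j) : ℚ) + ∑ i, (a j i : ℚ) * w i ≤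
        (e l j β : ℚ) + ∑ i, (β i : ℚ) * w i := by
      intro β hβ
      have h1 := hw (Sum.inr (Sum.inr ⟨j, β, hβ⟩))
      simp only [vec, zz, Sum.elim_inr, hdiff] at h1
      push_cast at h1
      linarith
    refine ⟨a j, ha j, b' j, hb' j, hab j, le_antisymm (h3 _ (hb' j)) ?_, h3⟩
    have h1 := hw (Sum.inr (Sum.inl j))
    simp only [vec, zz, Sum.elim_inr, Sum.elim_inl, hdiff] at h1
    push_cast at h1
    linarith

variable {s : ℕ}

/-- The polynomial `P` has the order `e` along the hypersurface `D = 0`: it is `D ^ e` times a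
polynomial which does not vanish at the points with `D = 0 ≠ E`. -/
def HasOrder (D E : MvPolynomial (Fin s) ℤ) (e : ℕ) (P : MvPolynomial (Fin s) ℂ) : Prop :=
  ∃ b : MvPolynomial (Fin s) ℂ, P = MvPolynomial.map (Int.castRingHom ℂ) D ^ e * b ∧
    ∀ t : Fin s → ℂ, aeval t D = 0 → aeval t E ≠ 0 → eval t b ≠ 0

/-- The value of such a polynomial at a point which is near to the hypersurface. -/
theorem HasOrder.val {D E : MvPolynomial (Fin s) ℤ} {e : ℕ} {P : MvPolynomial (Fin s) ℂ}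
    (h : HasOrder D E e P) : ∃ S : Set ℂ, S.Finite ∧ ∀ V : ValuationSubring ℂ,
      (∀ z ∈ S, z ∈ V) → ∀ t : Fin s → ℂ, (∀ j, t j ∈ V) → V.valuation (aeval t D) < 1 →
      V.valuation (aeval t E) = 1 →
      V.valuation (eval t P) = V.valuation (aeval t D) ^ e := by
  classical
  obtain ⟨b, rfl, hb⟩ := h
  obtain ⟨S, hS, h1⟩ := certV D E (fun _ : Unit => b) 1 (by
    intro t hD hE hw
    exact absurd (hw ()) (hb t hD hE))
  refine ⟨S ∪ coefsP b, hS.union (coefsP_finite b), fun V hV t ht hD hE => ?_⟩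
  have hmapeval : eval t (MvPolynomial.map (Int.castRingHom ℂ) D) = aeval t D := by
    rw [eval_map, aeval_def]
    congr 1
  have hle : V.valuation (eval t b) ≤ 1 :=
    (ValuationSubring.valuation_le_one_iff _ _).2
      (eval_mem V b (fun u hu => hV _ (Or.inr ⟨u, hu, rfl⟩)) ht)
  have h2 : V.valuation (eval t b) = 1 := by
    refine le_antisymm hle ?_
    by_contra hcon
    push Not at hcon
    have h3 := h1 V (fun z hz => hV z (Or.inl hz)) t ht hD hE fun _ => hcon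
    rw [map_one, map_one] at h3
    exact lt_irrefl _ h3
  rw [map_mul, map_pow, hmapeval, map_mul, map_pow, h2, mul_one]

/-- Scaling of a tropicalization. -/
theorem trop_scale {A : Fin m → Finset (Fin n → ℤ)} {e : Fin m → (Fin n → ℤ) → ℤ} {K : ℕ}
    (hK : 0 < K) {w : Fin n → ℚ} (h : w ∈ Trop A fun j β => (K : ℤ) * e j β) :
    (fun i => w i / K) ∈ Trop A e := by
  have hK0 : (K : ℚ) ≠ 0 := by exact_mod_cast hK.ne'
  have hKpos : (0 : ℚ) < K := by exact_mod_cast hK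
  have hsc : ∀ j (β : Fin n → ℤ), (e j β : ℚ) + ∑ i, (β i : ℚ) * (w i / K) =
      ((((K : ℤ) * e j β : ℤ) : ℚ) + ∑ i, (β i : ℚ) * w i) / K := by
    intro j β
    rw [add_div, Finset.sum_div]
    push_cast
    rw [mul_div_cancel_left₀ _ hK0]
    congr 1
    exact Finset.sum_congr rfl fun i _ => by rw [mul_div_assoc]
  intro j
  obtain ⟨a, ha, b, hb, hab, h1, h2⟩ := h j
  refine ⟨a, ha, b, hb, hab, ?_, fun β hβ => ?_⟩
  · rw [hsc, hsc, h1]
  · rw [hsc, hsc]
    exact div_le_div_of_nonneg_right (h2 β hβ) hKpos.le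

open Pool.Agent.Results.MP_b7926e_nt.FewExceptionalParameters (IsUnitOver)

/-- The number `z` is in the group generated by the numbers `u_j` and the units of the integral
closure of `ℤ[Γ]`, or has a power which is in this group. -/
def InHull {k : ℕ} (Γ : Set ℂ) (u : Fin k → ℂ) (z : ℂ) : Prop :=
  z ≠ 0 ∧ ∃ q : ℕ, 0 < q ∧ ∃ w : ℂ, IsUnitOver Γ w ∧ ∃ a : Fin k → ℤ, z ^ q = w * ∏ j, u j ^ a j

theorem unit_val {Γ : Set ℂ} {V : ValuationSubring ℂ} (hV : ∀ z ∈ Γ, z ∈ V) {z : ℂ}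
    (hz : IsUnitOver Γ z) : V.valuation z = 1 := by
  obtain ⟨hz0, h1, h2⟩ := hz
  have h3 : ∀ w : ℂ, IsIntegral (Algebra.adjoin ℤ Γ) w → V.valuation w ≤ 1 := by
    intro w hw
    have h4 : algebraMap ℂ ℂ '' Γ = Γ := by
      rw [Algebra.algebraMap_self]
      exact Set.image_id Γ
    refine Pool.Agent.Y152.BD.v_le_of_int (k := ℂ) Γ V (fun x hx => hV x hx) ?_
    rw [h4]
    exact hw
  refine le_antisymm (h3 z h1) ?_
  have h5 := h3 _ h2
  rw [map_inv₀] at h5
  have h6 : V.valuation z ≠ 0 := (Valuation.ne_zero_iff _).2 hz0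
  exact (inv_le_one₀ (zero_lt_iff.2 h6)).1 h5

/-- Cosets by points of the hull: the place-wise statement. -/
theorem moving {N r k : ℕ} (hN : 0 < N) (A : Fin m → Finset (Fin n → ℤ))
    (hA : ∀ j, (A j).Nonempty) (c : Fin m → (Fin n → ℤ) → ℂ) (u : Fin k → ℂ)
    (V : Fin N → ValuationSubring ℂ) (π : Fin N → ℂ) (hπ0 : ∀ l, π l ≠ 0)
    (hπ1 : ∀ l, (V l).valuation (π l) < 1) (e : Fin N → Fin m → (Fin n → ℤ) → ℕ)
    (f : Fin N → Fin k → ℕ)
    (he : ∀ l j, ∀ a ∈ A j, (V l).valuation (c j a) = (V l).valuation (π l) ^ e l j a)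
    (hf : ∀ l j, (V l).valuation (u j) = (V l).valuation (π l) ^ f l j)
    (hgen : ∀ L : Submodule ℚ (Fin n → ℚ), Module.finrank ℚ L < r →
      ∀ a : Fin n → Fin k → ℚ, ∃ l, ∀ w ∈ L,
        (fun i => w i + ∑ j, a i j * f l j) ∉ Trop A (fun j β => (e l j β : ℤ)))
    (Γ : Set ℂ) (hΓ : ∀ l, ∀ z ∈ Γ, z ∈ V l)
    (M : Submodule ℤ (Fin n → ℤ)) (η : Fin n → ℂ) (hη : ∀ i, InHull Γ u (η i))
    (W : Set (Fin n → ℂ))
    (hWV : ∀ x ∈ W, (∀ i, x i ≠ 0) ∧ ∀ j, ∑ β ∈ A j, c j β * ∏ i, x i ^ β i = 0)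
    (hWT : W ⊆ coset M η) (hW : (idealOf W).IsPrime) :
    dim W + (r : Cardinal) + (Module.finrank ℤ M : Cardinal) ≤ (n : Cardinal) := by
  classical
  choose hη0 q hq w hw a ha using hη
  let K : ℕ := ∏ i, q i
  have hK : 0 < K := Finset.prod_pos fun i _ => hq i
  have hKi : ∀ i, ∃ K' : ℕ, K = q i * K' := fun i => Finset.dvd_prod_of_mem q (Finset.mem_univ i)
  choose K' hK' using hKi
  -- the roots
  choose ρ hρ using fun l => IsAlgClosed.exists_pow_nat_eq (π l) hK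
  have hρ0 : ∀ l, ρ l ≠ 0 := by
    intro l h
    have h1 := hρ l
    rw [h, zero_pow hK.ne'] at h1
    exact hπ0 l h1.symm
  have hvρ : ∀ l, (V l).valuation (ρ l) ^ K = (V l).valuation (π l) := fun l => by
    rw [← map_pow, hρ]
  have hρv0 : ∀ l, (V l).valuation (ρ l) ≠ 0 := fun l => (Valuation.ne_zero_iff _).2 (hρ0 l)
  have hρ1 : ∀ l, (V l).valuation (ρ l) < 1 := by
    intro l
    by_contra hcon
    push Not at hcon
    have h1 := hπ1 l
    rw [← hvρ l] at h1
    exact absurd h1 (not_lt.2 (one_le_pow₀ hcon))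
  let g : Fin N → Fin n → ℤ := fun l i => ∑ j, (K' i : ℤ) * a i j * f l j
  refine critM A hA c (fun j β hβ h0 => ?_) V ρ hρ0 hρ1
    (fun l j β => (K : ℤ) * (e l j β : ℤ)) (fun l j β hβ => ?_) g (fun L hL => ?_) M η hη0
    (fun l i => ?_) W hWV hWT hW
  · have h1 := he ⟨0, hN⟩ j β hβ
    rw [h0, map_zero] at h1
    exact pow_ne_zero _ ((Valuation.ne_zero_iff _).2 (hπ0 _)) h1.symm
  · rw [he l j β hβ, ← hvρ l, zpow_mul, zpow_natCast, zpow_natCast]
  · obtain ⟨l, hl⟩ := hgen L hL fun i j => (K' i : ℚ) * a i j / K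
    refine ⟨l, fun w hwL hcon => hl ((K : ℚ)⁻¹ • w) (L.smul_mem _ hwL) ?_⟩
    have h1 := trop_scale hK hcon
    convert h1 using 1
    funext i
    simp only [Pi.smul_apply, smul_eq_mul, Pi.add_apply, g]
    push_cast
    rw [add_div, Finset.sum_div]
    congr 1
    · rw [div_eq_inv_mul]
    · refine Finset.sum_congr rfl fun j _ => ?_
      ring
  · -- the values of the point
    have h1 := congrArg (V l).valuation (ha i)
    rw [map_pow, map_mul, unit_val (hΓ l) (hw i), one_mul, map_prod] at h1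
    have h2 : ∏ j, (V l).valuation (u j ^ a i j) =
        (V l).valuation (π l) ^ ∑ j, (f l j : ℤ) * a i j := by
      have hzsum : ∀ (s : Finset (Fin k)) (h : Fin k → ℤ),
          ∏ j ∈ s, (V l).valuation (π l) ^ h j = (V l).valuation (π l) ^ ∑ j ∈ s, h j := by
        intro s h
        induction s using Finset.induction_on with
        | empty => simp
        | insert i s hi ih =>
          rw [Finset.prod_insert hi, Finset.sum_insert hi, ih,
            zpow_add₀ ((Valuation.ne_zero_iff _).2 (hπ0 l))]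
      rw [← hzsum]
      refine Finset.prod_congr rfl fun j _ => ?_
      rw [map_zpow₀, hf l j, zpow_mul, zpow_natCast]
    rw [h2] at h1
    have h3 : (V l).valuation (η i) ^ K = ((V l).valuation (ρ l) ^ g l i) ^ K := by
      rw [hK' i, pow_mul, h1, ← zpow_natCast, ← zpow_mul]
      rw [← hvρ l, ← zpow_natCast (G := (V l).ValueGroup), ← zpow_mul,
        ← zpow_natCast (((V l).valuation (ρ l)) ^ g l i), ← zpow_mul]
      congr 1
      rw [hK' i]
      simp only [g]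
      push_cast
      rw [Finset.sum_mul, Finset.mul_sum, Finset.sum_mul]
      refine Finset.sum_congr rfl fun j _ => ?_
      ring
    exact (pow_left_inj₀ zero_le zero_le hK.ne').1 h3

end Pool.Agent.Q170.TT
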